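import Pool.Agent.N585.PCG.PolyP

/-!
# Generalized PCG recognition is NP-hard

The decision problem `GenPCGRecognition`: given a graph `G` and a set `S` of non-edges of `G`, is
there a pairwise compatibility graph `PCG(T, dmin, dmax)` on the same vertices which contains all
edges of `G` and no pair in `S`?

Reduction: 3SAT -> betweenness on a line -> generalized PCG recognition.

* Four extra vertices (the anchors) `r₀ r₁ r₂ r₃` with the edges `r₀r₁`, `r₂r₃`, joined to all other
  vertices, with the four pairs `rᵢrⱼ` (`i ∈ {0, 1}`, `j ∈ {2, 3}`) in `S`, force all other pairs in
  `S` to be at distance less than `dmin` (`exists_long`, `short_of_long`, by the four-point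
  condition).
* Chains of pairs in `S` whose vertices are completely joined to each other by edges then force a
  quartet: the paths between the two ends of the chains are disjoint (`Q4.chain`, `sound`).
* Quartet constraints `ab|cd` on the projections of points to the path between two fixed leaves
  give constraints of the form: `c` is not between `a` and `b` in a linear order (`Q4.disj`, `solv_of_q4`), and
  conversely orders give caterpillars (`complete`, `gen_of_solv`).
-/

set_option autoImplicit false

namespace Pool.Agent.Results.MP_9390ab_lc.GenPCGRecognitionNPHard

open Pool.Agent.NPC Pool.Agent.N585.PCG

/-- **Generalized PCG recognition is NP-hard.** -/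
theorem result : NPHardP GenPCGRecognition := hardI_gen.toNPHardP

end Pool.Agent.Results.MP_9390ab_lc.GenPCGRecognitionNPHard
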